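import Pool.Agent.N22.DD.Cla

/-!
# Dade's ordinary conjecture for odd primes: one weight decides

Let `p` be an odd prime and `O` a valuation ring of `ℂ` whose maximal ideal contains `p`; blocks, defect
groups and block induction are defined by central characters modulo the maximal ideal of `O`
(`Pool.Agent.H254R3.IN`). For a block `B` of a finite group `G` let `S_d(B)` be Dade's alternating sum
of the numbers `k^d(B_σ)` over the classes of chains of nontrivial `p`-subgroups, and for a complex
number `t` let `W_t(B)` be the alternating sum in which every character `θ` is counted with the weight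
`t ^ d(θ)`.

Proof. The generating function `F_B(x) = ∑_d S_d(B) x^d = W_x(B)` satisfies
`2 F_{B ≀ C₂}(x) = F_B(x)² + 3 F_B(x²)` (`Pool.Agent.Q90.WR.blkP_wr`). Therefore, if it vanishes at `t`
for all iterated wreath products, it vanishes at all `t^(2^k)`. It is also multiplicative for direct
products, because the sum of an arbitrary function of the stabilisers over the chains of `G × K` is the
sum of its values at the `G_σ × K_τ` (`Pool.Agent.N22.DD.functional_prod`). If `F_B(t)` is subpolynomial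
for the pairs in a class closed under both operations, then `|F_B(t)| ≤ 1` there; the recursion, applied
to `B` and `B ⊗ B`, gives `|F_B(t²)| ≤ 19/20` and then, again by the recursion, `F_B(t^(2^k)) → 0`. A
polynomial which tends to zero along the iterated squares of a number `t` with `|t| ≥ 1` which is not a
root of unity is zero; for `|t| < 1` one uses the reversed polynomial.
-/

set_option autoImplicit false

noncomputable section

namespace Pool.Agent.Results.MP_3f89b9_al.OneWeightDecides

open Pool.Agent.Y63.KR (alternatingSum chainSetoid chainStabilizer)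
open Pool.Agent.Q90.WR (Wr WrN WrSN IndS AdmB bxS dfn)
open Pool.Agent.Q259.BW (WrS)
open Pool.Agent.H254R3.IN (IsBlock IsDefectGroup)
open Pool.Agent.N22.DD (Cl SqC WrC)

/-- `k^d(B_σ)` for `G_σ = H`: the number of the irreducible characters `θ` of the subgroup `H` of
`p`-defect `d` with `bl(θ)^G = B`. -/
def kB (p : ℕ) (O : ValuationSubring ℂ) (d : ℕ) {G : Type} [Group G] (B : Set (G → ℂ))
    (H : Subgroup G) : ℕ :=
  Nat.card {θ : H → ℂ // θ ∈ IndS O B (Subtype.val : H → G) ∧
    ∃ n : ℕ, θ 1 = (n : ℂ) ∧ n.factorization p + d = (Nat.card H).factorization p}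

/-- Dade's alternating sum `∑_σ (-1)^|σ| k^d(B_σ)` over representatives `σ` of the `G`-classes of
chains of nontrivial `p`-subgroups of `G`, the empty chain included. -/
def S (p : ℕ) (O : ValuationSubring ℂ) (d : ℕ) {G : Type} [Group G] (B : Set (G → ℂ)) : ℤ :=
  alternatingSum p G (fun H => (kB p O d B H : ℤ))

/-- The weighted alternating sum `∑_σ (-1)^|σ| ∑_θ t ^ d(θ)`; `θ` runs over the irreducible characters
of `G_σ` with `bl(θ)^G = B`, and `d(θ)` is the `p`-defect of `θ`. -/
def W (p : ℕ) (O : ValuationSubring ℂ) (t : ℂ) {G : Type} [Group G] (B : Set (G → ℂ)) : ℂ :=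
  ∑ᶠ c : Quotient (chainSetoid p G), (-1) ^ c.out.1.ncard *
    ∑ᶠ θ ∈ IndS O B (Subtype.val : chainStabilizer c.out.1 → G), t ^ dfn p θ

/-- **Dade's ordinary conjecture for odd primes: one weight decides.** Let `p` be an odd prime, `t ≠ 0`
a complex number which is not a root of unity, and `C` a class of pairs `(G, B)` of a finite group `G`
with `O_p(G) = 1` and a block `B` of `G` with nontrivial defect groups, closed under
`(G, B) ↦ (G ≀ C₂, B ≀ C₂)`.
(1) `S_d(B) = 0` for all `d` and all pairs in `C` if and only if `W_t(B) = 0` for all pairs in `C`.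
(2) If `C` is also closed under `(G, B) ↦ (G × G, B ⊗ B)`, then this holds if and only if
`|W_t(B)| ≤ c_ε |G|^ε min(1, |t|)^{v_p(|G|)}` on `C` for all `ε > 0`; for real `t` if and only if
`W_t(B) ≤ c_ε |G|^ε min(1, |t|)^{v_p(|G|)}` on `C` for all `ε > 0`.
(3) For one block `B` of a finite group `G` with a nontrivial defect group, `S_d(B) = 0` for all `d` if
and only if `W_t` vanishes at the first `v_p(|G|) + 1` iterated wreath products of `B`.
The class of all pairs `(G, B)` is closed under both operations. -/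
theorem result (p : ℕ) [Fact p.Prime] (hp2 : p ≠ 2) (O : ValuationSubring ℂ)
    (hpO : (p : ℂ) ∈ O.nonunits) :
    (∀ C : Cl, (∀ (G : Type) [i : Group G] (B : Set (G → ℂ)), C G i B → AdmB p O G B) → WrC C →
      (∀ t : ℂ, t ≠ 0 → (∀ n : ℕ, 0 < n → t ^ n ≠ 1) →
        ((∀ (G : Type) [i : Group G] (B : Set (G → ℂ)), C G i B → ∀ d, S p O d B = 0) ↔
          ∀ (G : Type) [i : Group G] (B : Set (G → ℂ)), C G i B → W p O t B = 0)) ∧
      (SqC C → (∀ t : ℂ, t ≠ 0 → (∀ n : ℕ, 0 < n → t ^ n ≠ 1) →
        ((∀ (G : Type) [i : Group G] (B : Set (G → ℂ)), C G i B → ∀ d, S p O d B = 0) ↔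
          ∀ ε : ℝ, 0 < ε → ∃ c : ℝ, ∀ (G : Type) [i : Group G] (B : Set (G → ℂ)), C G i B →
            ‖W p O t B‖ ≤ c * (Nat.card G : ℝ) ^ ε * min 1 ‖t‖ ^ (Nat.card G).factorization p)) ∧
        ∀ t : ℝ, t ≠ 0 → t ≠ 1 → t ≠ -1 →
        ((∀ (G : Type) [i : Group G] (B : Set (G → ℂ)), C G i B → ∀ d, S p O d B = 0) ↔
          ∀ ε : ℝ, 0 < ε → ∃ c : ℝ, ∀ (G : Type) [i : Group G] (B : Set (G → ℂ)), C G i B →
            (W p O (t : ℂ) B).re ≤
              c * (Nat.card G : ℝ) ^ ε * min 1 |t| ^ (Nat.card G).factorization p))) ∧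
    (∀ t : ℂ, t ≠ 0 → (∀ n : ℕ, 0 < n → t ^ n ≠ 1) →
      ∀ (G : Type) [Group G] [Finite G] (B : Set (G → ℂ)) (D : Subgroup G), IsBlock O B →
        IsDefectGroup p O B D → D ≠ ⊥ →
        ((∀ d, S p O d B = 0) ↔ ∀ j ≤ (Nat.card G).factorization p, W p O t (WrSN j B) = 0)) ∧
    SqC (fun G _ B => AdmB p O G B) ∧ WrC (fun G _ B => AdmB p O G B) := by
  have hW0 : ∀ (G : Type) [Group G] [Finite G] (B : Set (G → ℂ)), (∀ d, S p O d B = 0) →
      ∀ t : ℂ, W p O t B = 0 := by
    intro G _ _ B h t
    have := Fintype.ofFinite G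
    exact Pool.Agent.N22.DD.Wt_zero_of h t
  refine ⟨?_, ?_, ?_, ?_⟩
  · intro C hA hW
    refine ⟨fun t ht0 ht => ⟨fun h G _ B hB => ?_,
      Pool.Agent.N22.DD.dade_of_vanish hp2 hpO hA hW ht0 ht⟩, fun hS =>
      ⟨fun t ht0 ht => ⟨fun h ε _ => ⟨0, fun G _ B hB => ?_⟩,
        Pool.Agent.N22.DD.dade_of_weight hp2 hpO hA hS hW ht0 ht⟩,
      fun t ht0 ht1 ht2 => ⟨fun h ε _ => ⟨0, fun G _ B hB => ?_⟩,
        Pool.Agent.N22.DD.dade_of_real hp2 hpO hA hS hW ht0 ht1 ht2⟩⟩⟩
    · have := (hA G B hB).fin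
      exact hW0 G B (h G B hB) t
    · have := (hA G B hB).fin
      rw [hW0 G B (h G B hB) t]
      simp
    · have := (hA G B hB).fin
      rw [hW0 G B (h G B hB) t]
      simp
  · intro t ht0 ht G _ _ B D hB hD hne
    have := Fintype.ofFinite G
    exact Pool.Agent.N22.DD.one_block hp2 hpO ht0 ht G B
      ⟨hB, Pool.Agent.Q259.BW.nonunits_of_defect hpO hB hD hne⟩
  · intro G _ B hB
    have := hB.fin
    have := Fintype.ofFinite G
    exact Pool.Agent.N22.DD.AdmB.prod hB hB
  · intro G _ B hB
    exact hB.wr hp2 hpO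

end Pool.Agent.Results.MP_3f89b9_al.OneWeightDecides
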