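import Pool.Agent.Q90.WR.Daf

/-!
# Dade's alternating sums for odd primes and the numbers of real characters

Notation (`Pool/Agent/Y63/KR/Defs.lean`, `Pool/Agent/Q90/WR/Dad.lean`, `Pool/Agent/Q90/WR/Dae.lean`,
`Pool/Agent/Q90/WR/Grp.lean`, `Pool/Agent/Q90/WR/Tower.lean`).

* `numDef p d H` is the number of the irreducible characters of `H` of `p`-defect `d`, and
  `numRealDef p d H` the number of the real-valued ones among them.
* `dadeSum p d G = ∑_σ (-1)^|σ| numDef p d G_σ` over representatives `σ` of the `G`-classes of chains
  of nontrivial `p`-subgroups of `G`, the empty chain included: Dade's alternating sum for the defect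
  `d`, summed over all blocks of `G`. (If `O_p(G) = 1` and `d > 0`, then Dade's conjecture says that it
  is zero.) `realDadeSum p d G = ∑_σ numRealDef p d G_σ`, without signs.
* `Wr G` is the wreath product `G ≀ C₂`, and `WrN j G` its `j`-th iterate.

Proof. `2 S_d(G ≀ C₂) = ∑_{i + j = d} S_i(G) S_j(G) + 3 S_{d/2}(G)` for `S_d = dadeSum p d` (the last
term for even `d`) and odd `p`. So if `2 ^ (a + 1)` divides all `S_d(G)` and all `S_d(G ≀ C₂)`, `d > 0`,
then `2 ^ (a + 2)` divides all `S_d(G)`. Complex conjugation is an involution, so
`S_d(G) ≡ realDadeSum p d G` modulo `2`.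
-/

set_option autoImplicit false

namespace Pool.Agent.Results.MP_3f89b9_al.RealCharacterParity

open Pool.Agent.Q90.WR (Wr WrN dadeSum realDadeSum)

/-- **Dade's alternating sums for odd primes: the real characters decide.** Let `p` be an odd prime.
(1) For all finite groups `G` with `O_p(G) = 1` and all `d > 0` Dade's alternating sum of the numbers of
irreducible characters of defect `d` of the chain stabilisers (in all blocks) vanishes, if and only if
for all these `G` and `d` the sum of the numbers of the real ones among these characters, without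
signs, is even.
(2) The same for every class `X` of such groups closed under `G ↦ G ≀ C₂`.
(3) For one finite group `G` the sums vanish for all `d > 0` if and only if the numbers of real
characters have even sums, for all `d > 0`, for all iterated wreath products `WrN j G`. -/
theorem result (p : ℕ) [Fact p.Prime] (hp2 : p ≠ 2) :
    ((∀ (G : Type) [Group G] [Finite G], (∀ P : Subgroup G, P.Normal → IsPGroup p P → P = ⊥) →
        ∀ d, 0 < d → dadeSum p d G = 0) ↔
      ∀ (G : Type) [Group G] [Finite G], (∀ P : Subgroup G, P.Normal → IsPGroup p P → P = ⊥) →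
        ∀ d, 0 < d → Even (realDadeSum p d G)) ∧
    (∀ X : (H : Type) → [Group H] → Prop,
      (∀ (H : Type) [Group H] [Finite H], X H → X (Wr H)) →
      ((∀ (G : Type) [Group G] [Finite G], X G → ∀ d, 0 < d → dadeSum p d G = 0) ↔
        ∀ (G : Type) [Group G] [Finite G], X G → ∀ d, 0 < d → Even (realDadeSum p d G))) ∧
    ∀ (G : Type) [Group G] [Finite G],
      (∀ d, 0 < d → dadeSum p d G = 0) ↔
        ∀ j d : ℕ, 0 < d → Even (realDadeSum p d (WrN j G)) := by
  refine ⟨Pool.Agent.Q90.WR.dade_all hp2, ?_, fun G _ _ => Pool.Agent.Q90.WR.dade_one hp2 G⟩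
  intro X hX
  have hN : ∀ (j : ℕ) (G : Type) [Group G] [Finite G], X G → X (WrN j G) := by
    intro j
    induction j with
    | zero => exact fun G _ _ h => h
    | succ j ih => exact fun G _ _ h => ih (Wr G) (hX G h)
  constructor
  · intro h G _ _ hG
    exact fun d hd => (Pool.Agent.Q90.WR.dade_one hp2 G).mp (h G hG) 0 d hd
  · intro h G _ _ hG
    rw [Pool.Agent.Q90.WR.dade_one hp2]
    exact fun j => h (WrN j G) (hN j G hG)

end Pool.Agent.Results.MP_3f89b9_al.RealCharacterParity
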