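import Pool.Agent.N22.DD.Cla

/-!
# Dade's ordinary conjecture: subpolynomial upper bounds decide

Let `p` be a prime and `O` a valuation ring of `ℂ` whose maximal ideal contains `p`; blocks, defect
groups and block induction are defined by central characters modulo the maximal ideal of `O`
(`Pool.Agent.H254R3.IN`). For a block `B` of a finite group `G` let `S_d(B)` be Dade's alternating sum
of the numbers `k^d(B_σ)` over the classes of chains of nontrivial `p`-subgroups and `T_d(B)` the sum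
without signs.

Proof. The generating function `F_B(x) = ∑_d S_d(B) x^d` is multiplicative for direct products, because
the sum of an arbitrary function of the stabilisers over the chains of `G × K` is the sum of its values
at the `G_σ × K_τ` (`Pool.Agent.N22.DD.functional_prod`), and satisfies
`2 F_{B ≀ C₂}(x) = F_B(x)² + 3 F_B(x²)` if `p` is odd (`Pool.Agent.Q90.WR.blkP_wr`). Upper bounds for
the `S_d` bound their absolute values for `B ⊗ B`, because the sum of all `S_d(B ⊗ B)` is a square. If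
`F_B(x)` is subpolynomial for the pairs in a class closed under squares, then `|F_B(x)| ≤ 1` there; for
`|x| = 1` Parseval's identity shows that `F_B` has at most one nonzero coefficient, equal to `±1`. For
odd `p` the recursion, applied to `B` and `B ⊗ B`, gives `|F_B(x²)| ≤ 19/20`, and `F_B = 0` by Parseval.
-/

set_option autoImplicit false

noncomputable section

namespace Pool.Agent.Results.MP_3f89b9_al.UpperBoundsDecide

open Pool.Agent.Y63.KR (alternatingSum chainSetoid chainStabilizer)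
open Pool.Agent.Q90.WR (Wr IndS AdmB bxS)
open Pool.Agent.Q259.BW (WrS)
open Pool.Agent.N22.DD (Cl SqC WrC)

/-- `k^d(B_σ)` for `G_σ = H`: the number of the irreducible characters `θ` of the subgroup `H` of
`p`-defect `d` with `bl(θ)^G = B`. -/
def kB (p : ℕ) (O : ValuationSubring ℂ) (d : ℕ) {G : Type} [Group G] (B : Set (G → ℂ))
    (H : Subgroup G) : ℕ :=
  Nat.card {θ : H → ℂ // θ ∈ IndS O B (Subtype.val : H → G) ∧
    ∃ n : ℕ, θ 1 = (n : ℂ) ∧ n.factorization p + d = (Nat.card H).factorization p}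

/-- Dade's alternating sum `∑_σ (-1)^|σ| k^d(B_σ)` over representatives `σ` of the `G`-classes of
chains of nontrivial `p`-subgroups of `G`, the empty chain included. -/
def S (p : ℕ) (O : ValuationSubring ℂ) (d : ℕ) {G : Type} [Group G] (B : Set (G → ℂ)) : ℤ :=
  alternatingSum p G (fun H => (kB p O d B H : ℤ))

/-- The same sum without signs. -/
def T (p : ℕ) (O : ValuationSubring ℂ) (d : ℕ) {G : Type} [Group G] (B : Set (G → ℂ)) : ℕ :=
  ∑ᶠ c : Quotient (chainSetoid p G), kB p O d B (chainStabilizer c.out.1)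

/-- **Dade's ordinary conjecture: subpolynomial upper bounds decide.** Let `p` be a prime and `C` a
class of pairs `(G, B)` of a finite group `G` with `O_p(G) = 1` and a block `B` of `G` with nontrivial
defect groups, closed under `(G, B) ↦ (G × G, B ⊗ B)`.
(1) All `S_d(B)` are zero on `C` if and only if `S_d(B) ≤ 0` on `C` for all `d`.
(2) `S_d(B) ≤ c_ε |G|^ε` on `C` for all `d` and `ε > 0` if and only if for every pair in `C` at most one
of the numbers `S_d(B)` is not zero, and it is `1` or `-1`.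
(3) All `S_d(B)` are zero on `C` if and only if `S_d(B) ≤ c_ε |G|^ε` for all `d` and `ε > 0` and all
`T_d(B)` are even.
(4) If `p` is odd and `C` is also closed under `(G, B) ↦ (G ≀ C₂, B ≀ C₂)`, then all `S_d(B)` are zero
on `C` if and only if `S_d(B) ≤ c_ε |G|^ε` for all `d` and `ε > 0`.
The class of all pairs `(G, B)` is closed under both operations (the second one for odd `p`). -/
theorem result (p : ℕ) [Fact p.Prime] (O : ValuationSubring ℂ) (hpO : (p : ℂ) ∈ O.nonunits) :
    (∀ C : Cl, (∀ (G : Type) [i : Group G] (B : Set (G → ℂ)), C G i B → AdmB p O G B) → SqC C →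
      ((∀ (G : Type) [i : Group G] (B : Set (G → ℂ)), C G i B → ∀ d, S p O d B = 0) ↔
        ∀ (G : Type) [i : Group G] (B : Set (G → ℂ)), C G i B → ∀ d, S p O d B ≤ 0) ∧
      ((∀ ε : ℝ, 0 < ε → ∃ c : ℝ, ∀ (G : Type) [i : Group G] (B : Set (G → ℂ)), C G i B →
          ∀ d, (S p O d B : ℝ) ≤ c * (Nat.card G : ℝ) ^ ε) ↔
        ∀ (G : Type) [i : Group G] (B : Set (G → ℂ)), C G i B → (∀ d, |S p O d B| ≤ 1) ∧
          ∀ d e, S p O d B ≠ 0 → S p O e B ≠ 0 → d = e) ∧
      ((∀ (G : Type) [i : Group G] (B : Set (G → ℂ)), C G i B → ∀ d, S p O d B = 0) ↔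
        (∀ ε : ℝ, 0 < ε → ∃ c : ℝ, ∀ (G : Type) [i : Group G] (B : Set (G → ℂ)), C G i B →
          ∀ d, (S p O d B : ℝ) ≤ c * (Nat.card G : ℝ) ^ ε) ∧
        ∀ (G : Type) [i : Group G] (B : Set (G → ℂ)), C G i B → ∀ d, Even (T p O d B)) ∧
      (p ≠ 2 → WrC C →
        ((∀ (G : Type) [i : Group G] (B : Set (G → ℂ)), C G i B → ∀ d, S p O d B = 0) ↔
          ∀ ε : ℝ, 0 < ε → ∃ c : ℝ, ∀ (G : Type) [i : Group G] (B : Set (G → ℂ)), C G i B →
            ∀ d, (S p O d B : ℝ) ≤ c * (Nat.card G : ℝ) ^ ε))) ∧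
    SqC (fun G _ B => AdmB p O G B) ∧ (p ≠ 2 → WrC (fun G _ B => AdmB p O G B)) := by
  have hge : ∀ (G : Type) [Group G] [Finite G] (ε : ℝ), 0 < ε → (1 : ℝ) ≤ (Nat.card G : ℝ) ^ ε :=
    fun G _ _ ε hε => Real.one_le_rpow (by exact_mod_cast Nat.card_pos (α := G)) hε.le
  have hTS : ∀ (G : Type) [Group G] [Finite G] (B : Set (G → ℂ)) (d : ℕ),
      Even (T p O d B) ↔ (2 : ℤ) ∣ S p O d B := fun G _ _ B d =>
    Pool.Agent.Q90.WR.blkDef_parity d B
  have hup : ∀ C : Cl, (∀ (G : Type) [i : Group G] (B : Set (G → ℂ)), C G i B →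
      ∀ d, S p O d B = 0) → ∀ ε : ℝ, 0 < ε → ∃ c : ℝ, ∀ (G : Type) [i : Group G] (B : Set (G → ℂ)),
      C G i B → ∀ d, (S p O d B : ℝ) ≤ c * (Nat.card G : ℝ) ^ ε := by
    intro C h ε _
    refine ⟨0, fun G _ B hB d => ?_⟩
    rw [h G B hB d]
    simp
  refine ⟨?_, ?_, ?_⟩
  · intro C hA hS
    have h1 : (∀ ε : ℝ, 0 < ε → ∃ c : ℝ, ∀ (G : Type) [i : Group G] (B : Set (G → ℂ)), C G i B →
          ∀ d, (S p O d B : ℝ) ≤ c * (Nat.card G : ℝ) ^ ε) ↔
        ∀ (G : Type) [i : Group G] (B : Set (G → ℂ)), C G i B → (∀ d, |S p O d B| ≤ 1) ∧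
          ∀ d e, S p O d B ≠ 0 → S p O e B ≠ 0 → d = e := by
      constructor
      · intro hs G _ B hB
        have := (hA G B hB).fin
        exact Pool.Agent.N22.DD.single_of_sq (Pool.Agent.N22.DD.sq_le_one hA hS hs G B hB)
      · intro h ε hε
        refine ⟨1, fun G _ B hB d => ?_⟩
        have := (hA G B hB).fin
        have h2 : |(S p O d B : ℝ)| ≤ 1 := by exact_mod_cast (h G B hB).1 d
        rw [one_mul]
        exact (le_abs_self _).trans (h2.trans (hge G ε hε))
    refine ⟨⟨fun h G _ B hB d => (h G B hB d).le, Pool.Agent.N22.DD.dade_of_nonpos hA hS⟩, h1,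
      ⟨?_, ?_⟩, fun hp2 hW => ⟨hup C, Pool.Agent.N22.DD.dade_of_sub hp2 hpO hA hS hW⟩⟩
    · intro h
      refine ⟨hup C h, fun G _ B hB d => ?_⟩
      have := (hA G B hB).fin
      rw [hTS, h G B hB d]
      exact dvd_zero _
    · rintro ⟨hs, hT⟩ G _ B hB d
      have := (hA G B hB).fin
      have h2 := (h1.mp hs G B hB).1 d
      have h3 := (hTS G B d).mp (hT G B hB d)
      rw [abs_le] at h2
      omega
  · intro G _ B hB
    have := hB.fin
    have := Fintype.ofFinite G
    exact Pool.Agent.N22.DD.AdmB.prod hB hB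
  · intro hp2 G _ B hB
    exact hB.wr hp2 hpO

end Pool.Agent.Results.MP_3f89b9_al.UpperBoundsDecide
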